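import Mathlib
import Pool.Agent.W169.HF.DefsD

/-!
# GLD-HPX: upper bound for the heat flow from the profile `phx`
-/

set_option autoImplicit false

open Complex MeasureTheory Filter Topology Set
open scoped ComplexConjugate

namespace Pool.Agent.W160.HF

open Pool.Agent.W169.HF

/-- comparison of exponents (helper186) -/
lemma cmp {x x' r σ η : ℝ} (hx : 0 < x) (hx' : 0 < x') (hη : 0 ≤ η) (h : x - η ≤ x') (hηx : η ≤ x') (hr : 0 ≤ r)
    (hσ : 0 ≤ σ) : max (x - r) 0 ^ 2 / (2 * x) ≤ (σ + x' - r) ^ 2 / (2 * x') + 2 * η := by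
  rcases le_total (x - r) 0 with h1 | h1
  · rw [max_eq_right h1]
    have : 0 ≤ (σ + x' - r) ^ 2 / (2 * x') := by positivity
    simp only [ne_eq, OfNat.ofNat_ne_zero, not_false_eq_true, zero_pow, zero_div]
    linarith
  · rw [max_eq_left h1]
    rcases le_total x x' with h2 | h2
    · have h3 : (x - r) ^ 2 / (2 * x) ≤ (x' - r) ^ 2 / (2 * x') := by
        rw [div_le_div_iff₀ (by positivity) (by positivity)]
        have h4 : (x' - r) ^ 2 * (2 * x) - (x - r) ^ 2 * (2 * x') = 2 * ((x' - x) * (x * x' - r ^ 2)) := by ring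
        have h5 : r ^ 2 ≤ x * x' := by
          have : r * r ≤ x * x' := mul_le_mul (by linarith) (by linarith) hr hx.le
          nlinarith
        have h6 : 0 ≤ (x' - x) * (x * x' - r ^ 2) := mul_nonneg (by linarith) (by linarith)
        linarith
      have h7 : (x' - r) ^ 2 / (2 * x') ≤ (σ + x' - r) ^ 2 / (2 * x') := by
        apply div_le_div_of_nonneg_right _ (by positivity)
        exact pow_le_pow_left₀ (by linarith) (by linarith) 2
      linarith
    · -- x' < x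
      have h3 : (x - r) ^ 2 / (2 * x) ≤ (x - r) ^ 2 / (2 * x') :=
        div_le_div_of_nonneg_left (sq_nonneg _) (by positivity) (by linarith)
      refine h3.trans ?_
      rw [div_add' _ _ _ (by positivity), div_le_div_iff_of_pos_right (by positivity)]
      rcases le_total (x' - r) 0 with h4 | h4
      · have h5 : (x - r) ^ 2 ≤ η ^ 2 := pow_le_pow_left₀ h1 (by linarith) 2
        nlinarith [sq_nonneg (σ + x' - r)]
      · have h5 : (x - r) ^ 2 ≤ (x' - r + η) ^ 2 := pow_le_pow_left₀ h1 (by linarith) 2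
        have h6 : (x' - r) ^ 2 ≤ (σ + x' - r) ^ 2 := pow_le_pow_left₀ h4 (by linarith) 2
        have h7 : (x' - r) * η ≤ x' * η := mul_le_mul_of_nonneg_right (by linarith) hη
        have h8 : η * η ≤ η * x' := mul_le_mul_of_nonneg_left hηx hη
        nlinarith

/-- the exponent on the window -/
lemma expo {x τ ρ σ s κ1 : ℝ} (hx : 0 < x) (hτ : 0 < τ) (hκ : 0 ≤ κ1) (h : x - κ1 ≤ τ) (hκτ : κ1 ≤ τ)
    (hρ : 0 ≤ ρ) (hσ : 0 ≤ σ) (hs : |σ - ρ| ≤ s) :
    phx x ρ ≤ σ + τ / 2 + s ^ 2 / (2 * τ) + 2 * κ1 := by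
  have h1 := cmp hx hτ hκ h hκτ hρ hσ
  have h2 : ρ + (σ + τ - ρ) ^ 2 / (2 * τ) = σ + τ / 2 + (σ - ρ) ^ 2 / (2 * τ) := by
    field_simp
    ring
  have h3 : (σ - ρ) ^ 2 / (2 * τ) ≤ s ^ 2 / (2 * τ) := by
    apply div_le_div_of_nonneg_right _ (by positivity)
    rw [← sq_abs]
    exact pow_le_pow_left₀ (abs_nonneg _) hs 2
  unfold phx
  linarith

theorem hpx : S_HPX := by
  intro K θ0 x X κ R1 hK hθ1 hθ2 hx hxX hX hκ hR1
  obtain ⟨κ1, hκ1⟩ : ∃ κ1 : ℝ, κ1 = min (x / 2) (κ / 8) := ⟨_, rfl⟩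
  have hκ1p : 0 < κ1 := by rw [hκ1]; exact lt_min (by linarith) (by linarith)
  have hκ1x : κ1 ≤ x / 2 := by rw [hκ1]; exact min_le_left _ _
  have hκ1κ : κ1 ≤ κ / 8 := by rw [hκ1]; exact min_le_right _ _
  obtain ⟨R, hR⟩ : ∃ R : ℝ, R = 2 * R1 + 32 * X := ⟨_, rfl⟩
  obtain ⟨C2, hC2⟩ : ∃ C2 : ℝ, C2 = (R + R1) ^ 2 / x + K * (1 + R1 ^ 2) := ⟨_, rfl⟩
  have hC1 : 0 ≤ (R + R1) ^ 2 / x := by positivity
  have hK1 : 0 ≤ K * (1 + R1 ^ 2) := by positivity
  refine ⟨κ1, R, 2 + 32 * K * X + 4 * C2 / κ + 8 / κ ^ 2 * 4, hκ1p, by rw [hR]; linarith, ?_⟩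
  intro ℓ G t f hℓ hf hb ht htx htX u hu1 hu2
  have hKX : 0 < K * X := by positivity
  have hC20 : 0 ≤ C2 := by rw [hC2]; linarith
  have q1 : 0 ≤ 4 * C2 / κ := by positivity
  have q2 : 0 ≤ 8 / κ ^ 2 * 4 := by positivity
  have hℓ2 : 2 ≤ ℓ := by linarith
  have hℓ0 : 0 < ℓ := by linarith
  have hℓK : 32 * K * X ≤ ℓ := by linarith
  have hℓC : C2 ≤ κ * ℓ / 4 := by
    have : 4 * C2 / κ ≤ ℓ := by linarith
    rw [div_le_iff₀ hκ] at this
    linarith
  have hℓκ : 32 ≤ κ ^ 2 * ℓ := by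
    have : 8 / κ ^ 2 * 4 ≤ ℓ := by linarith
    rw [div_mul_eq_mul_div, div_le_iff₀ (by positivity)] at this
    linarith
  have hG := hf.hG
  obtain ⟨τ, hτd⟩ : ∃ τ : ℝ, τ = 2 * t * ℓ := ⟨_, rfl⟩
  rw [← hτd] at htx htX
  have hτ : x / 2 ≤ τ := by linarith
  have hτ0 : 0 < τ := by linarith
  obtain ⟨a, ha⟩ : ∃ a : ℝ, a = u.re := ⟨_, rfl⟩
  rw [← ha] at hu1 ⊢
  obtain ⟨M, hM⟩ : ∃ M : ℝ, M = G * Real.exp (t * ℓ ^ 2 + ℓ * |a| + 3 * κ1 * ℓ + C2) := ⟨_, rfl⟩
  have hM0 : 0 ≤ M := by rw [hM]; positivity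
  -- pointwise
  have hpt : ∀ v : ℝ, ‖((Real.exp (-v ^ 2) : ℝ) : ℂ) * f (u + ((2 * Real.sqrt t * v : ℝ) : ℂ))‖ ≤
      M * Real.exp (-(1 / ℓ) * v ^ 2) := by
    intro v
    rw [norm_mul, Complex.norm_real, Real.norm_eq_abs, abs_of_pos (Real.exp_pos _)]
    obtain ⟨w, hw⟩ : ∃ w : ℂ, w = u + ((2 * Real.sqrt t * v : ℝ) : ℂ) := ⟨_, rfl⟩
    rw [← hw]
    have hwr : w.re = a + 2 * Real.sqrt t * v := by rw [hw, Complex.add_re, Complex.ofReal_re, ha]
    have hwi : w.im = u.im := by rw [hw, Complex.add_im, Complex.ofReal_im, add_zero]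
    obtain ⟨s, hs⟩ : ∃ s : ℝ, s = |w.re - a| := ⟨_, rfl⟩
    have hs0 : 0 ≤ s := by rw [hs]; exact abs_nonneg _
    have hsv : v ^ 2 = ℓ * (s ^ 2 / (2 * τ)) := by
      have h1 : s ^ 2 = 4 * t * v ^ 2 := by
        rw [hs, sq_abs, hwr]
        have : a + 2 * Real.sqrt t * v - a = 2 * Real.sqrt t * v := by ring
        rw [this, mul_pow, mul_pow, Real.sq_sqrt ht.le]
        ring
      rw [h1, hτd]
      field_simp
      ring
    have hsr : |(|a| - |w.re|)| ≤ s := by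
      rw [hs, abs_sub_comm w.re a]
      exact abs_abs_sub_abs_le_abs_sub a w.re
    rcases le_or_gt |w.re| R with h | h
    · -- the window
      have h1 := hb w h (by rw [hwi]; rw [hR]; linarith [abs_nonneg u.im])
      have h2 := expo hx hτ0 hκ1p.le htx (by linarith) (abs_nonneg w.re) (abs_nonneg a) hsr
      have h3 : s ≤ R + R1 := by
        rw [hs]
        refine (abs_sub _ _).trans ?_
        linarith
      have h4 : s ^ 2 / (2 * τ) ≤ (R + R1) ^ 2 / x := by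
        have : s ^ 2 ≤ (R + R1) ^ 2 := pow_le_pow_left₀ hs0 h3 2
        apply div_le_div₀ (by positivity) this hx (by linarith)
      have h5 : 1 / ℓ * v ^ 2 ≤ (R + R1) ^ 2 / x := by
        rw [hsv, ← mul_assoc, one_div, inv_mul_cancel₀ hℓ0.ne', one_mul]
        exact h4
      calc Real.exp (-v ^ 2) * ‖f w‖
          ≤ Real.exp (-v ^ 2) * (G * Real.exp (ℓ * phx x |w.re| + κ1 * ℓ)) :=
            mul_le_mul_of_nonneg_left h1 (Real.exp_pos _).le
        _ = G * Real.exp (-v ^ 2 + (ℓ * phx x |w.re| + κ1 * ℓ)) := by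
            rw [mul_left_comm, ← Real.exp_add]
        _ ≤ G * Real.exp ((t * ℓ ^ 2 + ℓ * |a| + 3 * κ1 * ℓ + C2) + (-(1 / ℓ) * v ^ 2)) := by
            apply mul_le_mul_of_nonneg_left _ hG.le
            apply Real.exp_le_exp.2
            have h6 := mul_le_mul_of_nonneg_left h2 hℓ0.le
            have h7 : ℓ * (|a| + τ / 2 + s ^ 2 / (2 * τ) + 2 * κ1) =
                ℓ * |a| + t * ℓ ^ 2 + v ^ 2 + 2 * κ1 * ℓ := by
              rw [hsv, hτd]
              ring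
            rw [h7] at h6
            rw [hC2]
            linarith
        _ = M * Real.exp (-(1 / ℓ) * v ^ 2) := by rw [hM, Real.exp_add]; ring
    · -- far away
      have h1 := hf.up w
      have hR2 : 2 * R1 + 32 * X < |w.re| := by rw [← hR]; exact h
      have h2 : max |w.re| θ0 = |w.re| := max_eq_left (by linarith)
      rw [h2] at h1
      have h3 : ‖w‖ ^ 2 ≤ |w.re| ^ 2 + R1 ^ 2 := by
        rw [← Complex.normSq_eq_norm_sq, Complex.normSq_apply, sq_abs]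
        have : w.im * w.im ≤ R1 ^ 2 := by
          rw [hwi, ← sq, ← sq_abs]
          exact pow_le_pow_left₀ (abs_nonneg _) hu2 2
        nlinarith
      have h4 : |w.re| / 2 ≤ s := by
        have : |w.re| - |a| ≤ s := by
          have := (abs_le.1 hsr).1
          linarith
        linarith
      have h5 : ℓ * (|w.re| ^ 2 / (16 * X)) ≤ v ^ 2 / 2 := by
        have e1 : (|w.re| / 2) ^ 2 ≤ s ^ 2 := pow_le_pow_left₀ (by positivity) h4 2
        have e2 : (|w.re| / 2) ^ 2 / (2 * X) ≤ s ^ 2 / (2 * τ) := by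
          apply div_le_div₀ (by positivity) e1 (by positivity) (by linarith)
        have e3 : |w.re| ^ 2 / (16 * X) = (|w.re| / 2) ^ 2 / (2 * X) / 2 := by
          field_simp
          ring
        rw [e3, hsv]
        have := mul_le_mul_of_nonneg_left e2 hℓ0.le
        linarith
      have h6 : ℓ * |w.re| ≤ ℓ * (|w.re| ^ 2 / (32 * X)) := by
        apply mul_le_mul_of_nonneg_left _ hℓ0.le
        rw [le_div_iff₀ (by positivity)]
        have : |w.re| * (32 * X) ≤ |w.re| * |w.re| := mul_le_mul_of_nonneg_left (by linarith) (abs_nonneg _)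
        nlinarith
      have h7 : K * |w.re| ^ 2 ≤ ℓ * (|w.re| ^ 2 / (32 * X)) := by
        rw [mul_div_assoc', le_div_iff₀ (by positivity)]
        have : 32 * K * X * |w.re| ^ 2 ≤ ℓ * |w.re| ^ 2 := mul_le_mul_of_nonneg_right hℓK (by positivity)
        linarith
      have h8 : ℓ * (|w.re| ^ 2 / (16 * X)) = ℓ * (|w.re| ^ 2 / (32 * X)) + ℓ * (|w.re| ^ 2 / (32 * X)) := by
        field_simp
        ring
      have h9 : 1 / ℓ * v ^ 2 ≤ v ^ 2 / 2 := by
        rw [div_mul_eq_mul_div, one_mul]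
        exact div_le_div_of_nonneg_left (sq_nonneg _) (by norm_num) hℓ2
      calc Real.exp (-v ^ 2) * ‖f w‖
          ≤ Real.exp (-v ^ 2) * (G * Real.exp (ℓ * |w.re| + K * (1 + ‖w‖ ^ 2))) :=
            mul_le_mul_of_nonneg_left h1 (Real.exp_pos _).le
        _ = G * Real.exp (-v ^ 2 + (ℓ * |w.re| + K * (1 + ‖w‖ ^ 2))) := by
            rw [mul_left_comm, ← Real.exp_add]
        _ ≤ G * Real.exp ((t * ℓ ^ 2 + ℓ * |a| + 3 * κ1 * ℓ + C2) + (-(1 / ℓ) * v ^ 2)) := by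
            apply mul_le_mul_of_nonneg_left _ hG.le
            apply Real.exp_le_exp.2
            have g1 : K * (1 + ‖w‖ ^ 2) ≤ K * |w.re| ^ 2 + K * (1 + R1 ^ 2) := by
              have := mul_le_mul_of_nonneg_left h3 (by linarith : (0 : ℝ) ≤ K)
              linarith
            have g2 : 0 ≤ t * ℓ ^ 2 := by positivity
            have g3 : 0 ≤ ℓ * |a| := by positivity
            have g4 : 0 ≤ 3 * κ1 * ℓ := by positivity
            rw [hC2]
            linarith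
        _ = M * Real.exp (-(1 / ℓ) * v ^ 2) := by rw [hM, Real.exp_add]; ring
  have hI : Integrable (fun v : ℝ => Real.exp (-(1 / ℓ) * v ^ 2)) :=
    integrable_exp_neg_mul_sq (by positivity)
  have hint := norm_integral_le_of_norm_le (hI.const_mul M) (Eventually.of_forall hpt)
  rw [integral_const_mul, integral_gaussian] at hint
  unfold heat
  rw [norm_mul, Complex.norm_real, Real.norm_eq_abs,
    abs_of_nonneg (by positivity : (0 : ℝ) ≤ 1 / Real.sqrt Real.pi)]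
  have hpi : 0 < Real.sqrt Real.pi := Real.sqrt_pos.2 Real.pi_pos
  have hsq : Real.sqrt (Real.pi / (1 / ℓ)) = Real.sqrt Real.pi * Real.sqrt ℓ := by
    rw [div_div_eq_mul_div, div_one, Real.sqrt_mul Real.pi_pos.le]
  rw [hsq] at hint
  have hsl : Real.sqrt ℓ ≤ Real.exp (κ * ℓ / 4) := by
    rw [Real.sqrt_le_left (Real.exp_pos _).le, ← Real.exp_nat_mul]
    have h1 := Real.quadratic_le_exp_of_nonneg (x := κ * ℓ / 2) (by positivity)
    have h2 : ((2 : ℕ) : ℝ) * (κ * ℓ / 4) = κ * ℓ / 2 := by push_cast; ring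
    rw [h2]
    have h3 : 32 * ℓ ≤ (κ * ℓ) ^ 2 := by nlinarith
    have h4 : 0 ≤ κ * ℓ / 2 := by positivity
    nlinarith
  calc 1 / Real.sqrt Real.pi * ‖∫ v : ℝ, ((Real.exp (-v ^ 2) : ℝ) : ℂ) *
        f (u + ((2 * Real.sqrt t * v : ℝ) : ℂ))‖
      ≤ 1 / Real.sqrt Real.pi * (M * (Real.sqrt Real.pi * Real.sqrt ℓ)) :=
        mul_le_mul_of_nonneg_left hint (by positivity)
    _ = M * Real.sqrt ℓ := by
        have hpi' : Real.sqrt Real.pi ≠ 0 := hpi.ne'
        field_simp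
    _ ≤ M * Real.exp (κ * ℓ / 4) := mul_le_mul_of_nonneg_left hsl hM0
    _ = G * Real.exp (t * ℓ ^ 2) * Real.exp (ℓ * |a| + (3 * κ1 * ℓ + C2 + κ * ℓ / 4)) := by
        rw [hM, mul_assoc G, mul_assoc G, ← Real.exp_add, ← Real.exp_add]
        congr 2
        ring
    _ ≤ _ := by
        apply mul_le_mul_of_nonneg_left _ (by positivity)
        apply Real.exp_le_exp.2
        have : κ1 * ℓ ≤ κ / 8 * ℓ := mul_le_mul_of_nonneg_right hκ1κ hℓ0.le
        linarith [mul_pos hκ hℓ0]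

end Pool.Agent.W160.HF
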